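import Pool.Agent.H66.SP.Defs

/-!
# All Julia sets: the images of discs around points of the backward orbit of `J` are not small (`pg_ns`)

`pg_uc`: the iterates are uniformly continuous at the points of `J`. PROOF of `pg_ns`: `B` the points `q` with `‖q‖ ≤ R` and `f^[k] q ∈ J` for some `k`; `closure B` is compact, finitely many balls of radius `t / 2` around points of `closure B` cover it,
each of them meets `B`: `leb` gives `N`: for `n ≥ N`, `q ∈ B`: `J ⊆ f^[n] '' (ball q t ∩ dm n)`. For `k ≥ N` done (`J` has two points). For `k < N`: all images `f^[k] y` are near `f^[k] q ∈ J`, so the images under `f^[N - k]` are near `f^[N] q`, but `J ⊆ f^[N] '' (ball q t ∩ dm N)`.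
-/

set_option autoImplicit false

open Filter Topology Metric Set MeasureTheory

namespace Pool.Agent.H64.SPG

open Pool.Agent.H56.UD (dm)
open Pool.Agent.H66.SP (PG)

variable {f : ℂ → ℂ} {U J P Cr : Set ℂ} {δ : ℝ} {η : ℂ → ℂ → ℂ} {ρ : ℝ}

private theorem uc1 (h : PG f U J P Cr δ η ρ) {ε : ℝ} (hε : 0 < ε) :
    ∃ s : ℝ, 0 < s ∧ ∀ p ∈ J, ∀ w, ‖w - p‖ < s → w ∈ U ∧ ‖f w - f p‖ < ε := by
  have h1 : ∀ p ∈ J, ∃ r : ℝ, 0 < r ∧ ∀ w ∈ ball p (2 * r), w ∈ U ∧ f w ∈ ball (f p) (ε / 2) := by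
    intro p hp
    have hc : ContinuousAt f p := (h.fd.differentiableAt (h.Uo.mem_nhds (h.JU hp))).continuousAt
    have h2 : ∀ᶠ w in 𝓝 p, w ∈ U ∧ f w ∈ ball (f p) (ε / 2) :=
      Filter.Eventually.and (h.Uo.mem_nhds (h.JU hp)) (hc.eventually_mem (ball_mem_nhds _ (half_pos hε)))
    obtain ⟨r, hr, h3⟩ := Metric.eventually_nhds_iff_ball.1 h2
    exact ⟨r / 2, half_pos hr, fun w hw => h3 w (by rwa [mul_div_cancel₀ r two_ne_zero] at hw)⟩
  choose! r hr0 hr using h1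
  obtain ⟨T, hTJ, hT⟩ := h.Jc.elim_nhds_subcover (fun p => ball p (r p)) fun p hp => ball_mem_nhds p (hr0 p hp)
  obtain ⟨s, hs0, hs⟩ : ∃ s : ℝ, 0 < s ∧ ∀ p ∈ T, s ≤ r p := by
    rcases T.eq_empty_or_nonempty with h3 | h3
    · exact ⟨1, one_pos, fun p hp => by rw [h3] at hp; exact absurd hp (Finset.notMem_empty p)⟩
    · obtain ⟨b, hb, hbm⟩ := T.exists_min_image r h3
      exact ⟨r b, hr0 b (hTJ b hb), hbm⟩
  refine ⟨s, hs0, fun p hp w hw => ?_⟩
  have h4 := hT hp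
  rw [Set.mem_iUnion₂] at h4
  obtain ⟨a, ha, hpa⟩ := h4
  have h5 : ‖p - a‖ < r a := by rwa [mem_ball, dist_eq_norm] at hpa
  have h6 : w ∈ ball a (2 * r a) := by
    rw [mem_ball, dist_eq_norm]
    have h7 : w - a = (w - p) + (p - a) := by ring
    rw [h7]
    refine (norm_add_le _ _).trans_lt ?_
    linarith [hs a ha]
  have h7 : p ∈ ball a (2 * r a) := by
    rw [mem_ball, dist_eq_norm]
    linarith [norm_nonneg (p - a)]
  have h8 := hr a (hTJ a ha) w h6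
  have h9 := (hr a (hTJ a ha) p h7).2
  refine ⟨h8.1, ?_⟩
  have h10 := h8.2
  rw [mem_ball, dist_eq_norm] at h9 h10
  have h11 : f w - f p = (f w - f a) - (f p - f a) := by ring
  rw [h11]
  refine (norm_sub_le _ _).trans_lt ?_
  linarith

theorem pg_uc (h : PG f U J P Cr δ η ρ) (n : ℕ) {ε : ℝ} (hε : 0 < ε) :
    ∃ s : ℝ, 0 < s ∧ ∀ p ∈ J, ∀ w, ‖w - p‖ < s → (∀ j < n, f^[j] w ∈ U) ∧ ‖f^[n] w - f^[n] p‖ < ε := by
  induction n with
  | zero => exact ⟨ε, hε, fun p _ w hw => ⟨fun j hj => absurd hj (Nat.not_lt_zero j), hw⟩⟩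
  | succ n ih =>
    obtain ⟨s, hs, h1⟩ := ih
    obtain ⟨s', hs', h2⟩ := uc1 h hs
    refine ⟨s', hs', fun p hp w hw => ?_⟩
    obtain ⟨h3, h4⟩ := h2 p hp w hw
    obtain ⟨h5, h6⟩ := h1 (f p) (h.Jf p hp) (f w) h4
    refine ⟨fun j hj => ?_, ?_⟩
    · rcases Nat.eq_zero_or_pos j with h7 | h7
      · rw [h7]
        exact h3
      · obtain ⟨i, rfl⟩ : ∃ i, j = i + 1 := ⟨j - 1, by omega⟩
        rw [Function.iterate_succ_apply]
        exact h5 i (by omega)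
    · rw [Function.iterate_succ_apply, Function.iterate_succ_apply]
      exact h6

theorem pg_ns (h : PG f U J P Cr δ η ρ) {t : ℝ} (R : ℝ) (ht : 0 < t) :
    ∃ ε : ℝ, 0 < ε ∧ ∀ (q : ℂ) (k : ℕ) (c : ℂ), ‖q‖ ≤ R → (∀ j < k, f^[j] q ∈ U) → f^[k] q ∈ J →
      ∃ y ∈ ball q t, (∀ j < k, f^[j] y ∈ U) ∧ f^[k] y ∉ ball c ε := by
  obtain ⟨a₁, ha₁, b₁, hb₁, hab⟩ := h.Jt
  obtain ⟨D, hD⟩ : ∃ D : ℝ, D = ‖a₁ - b₁‖ := ⟨_, rfl⟩
  have hD0 : 0 < D := by rw [hD]; exact norm_pos_iff.2 (sub_ne_zero.2 hab)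
  obtain ⟨B, hB⟩ : ∃ B : Set ℂ, B = {q | ‖q‖ ≤ R ∧ ∃ k : ℕ, (∀ j < k, f^[j] q ∈ U) ∧ f^[k] q ∈ J} := ⟨_, rfl⟩
  have hBc : IsCompact (closure B) := by
    refine (Metric.isBounded_closedBall (x := (0 : ℂ)) (r := R)).subset ?_ |>.isCompact_closure
    intro q hq
    rw [hB] at hq
    exact mem_closedBall_zero_iff.2 hq.1
  have h1 : ∀ a ∈ closure B, ∃ N : ℕ, ∀ n ≥ N, J ⊆ f^[n] '' (ball a (t / 2) ∩ dm f U J δ n) := by
    intro a ha
    obtain ⟨q, hq, hqa⟩ := Metric.mem_closure_iff.1 ha (t / 2) (half_pos ht)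
    rw [hB] at hq
    obtain ⟨-, k, hk, hkJ⟩ := hq
    exact h.leb _ isOpen_ball ⟨q, by rw [mem_ball, dist_comm]; exact hqa, k, hk, hkJ⟩
  choose! N hN using h1
  obtain ⟨T, hTB, hT⟩ := hBc.elim_nhds_subcover (fun a => ball a (t / 2)) fun a _ => ball_mem_nhds a (half_pos ht)
  obtain ⟨M, hM⟩ : ∃ M : ℕ, ∀ a ∈ T, N a ≤ M := ⟨T.sup N, fun a ha => Finset.le_sup ha⟩
  have h2 : ∀ q ∈ B, ∀ n ≥ M, J ⊆ f^[n] '' (ball q t ∩ dm f U J δ n) := by
    intro q hq n hn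
    have h3 := hT (subset_closure hq)
    rw [Set.mem_iUnion₂] at h3
    obtain ⟨a, ha, hqa⟩ := h3
    refine (hN a (hTB a ha) n ((hM a ha).trans hn)).trans (image_mono (inter_subset_inter_left _ ?_))
    refine ball_subset_ball' ?_
    rw [mem_ball, dist_comm] at hqa
    linarith
  -- uniform continuity up to time `M`
  obtain ⟨s, hs, h3⟩ : ∃ s : ℝ, 0 < s ∧ ∀ n ≤ M, ∀ p ∈ J, ∀ w, ‖w - p‖ < s → ‖f^[n] w - f^[n] p‖ < D / 2 := by
    choose s hs hs' using fun n => pg_uc h n (half_pos hD0)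
    obtain ⟨b, hb, hbm⟩ := (Finset.range (M + 1)).exists_min_image s ⟨0, Finset.mem_range.2 (Nat.succ_pos M)⟩
    exact ⟨s b, hs b, fun n hn p hp w hw =>
      (hs' n p hp w (hw.trans_le (hbm n (Finset.mem_range.2 (by omega))))).2⟩
  refine ⟨min (D / 2) (s / 2), lt_min (half_pos hD0) (half_pos hs), ?_⟩
  intro q k c hqR hqU hqJ
  by_contra hcon
  push Not at hcon
  have hqB : q ∈ B := by
    rw [hB]
    exact ⟨hqR, k, hqU, hqJ⟩
  rcases le_or_gt M k with hMk | hkM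
  · obtain ⟨x, hx, hxa⟩ := h2 q hqB k hMk ha₁
    obtain ⟨y, hy, hyb⟩ := h2 q hqB k hMk hb₁
    have h4 := ball_subset_ball (min_le_left _ _) (hcon x hx.1 hx.2.1)
    have h5 := ball_subset_ball (min_le_left _ _) (hcon y hy.1 hy.2.1)
    rw [hxa, mem_ball, dist_eq_norm] at h4
    rw [hyb, mem_ball, dist_eq_norm] at h5
    have h6 : a₁ - b₁ = (a₁ - c) - (b₁ - c) := by ring
    have h7 : D < D := by
      rw [hD, h6]
      refine (norm_sub_le _ _).trans_lt ?_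
      rw [← h6, ← hD]
      linarith
    exact lt_irrefl _ h7
  · have hqc := ball_subset_ball (min_le_right _ _) (hcon q (mem_ball_self ht) hqU)
    rw [mem_ball, dist_eq_norm] at hqc
    have h4 : ∀ x ∈ ball q t ∩ dm f U J δ M, ‖f^[M] x - f^[M] q‖ < D / 2 := by
      intro x hx
      have h5 := ball_subset_ball (min_le_right _ _) (hcon x hx.1 fun j hj => hx.2.1 j (hj.trans hkM))
      rw [mem_ball, dist_eq_norm] at h5
      have h6 : ‖f^[k] x - f^[k] q‖ < s := by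
        have h7 : f^[k] x - f^[k] q = (f^[k] x - c) - (f^[k] q - c) := by ring
        rw [h7]
        refine (norm_sub_le _ _).trans_lt ?_
        linarith
      have h8 := h3 (M - k) (Nat.sub_le M k) (f^[k] q) hqJ (f^[k] x) h6
      rw [← Function.iterate_add_apply, ← Function.iterate_add_apply, Nat.sub_add_cancel hkM.le] at h8
      exact h8
    obtain ⟨x, hx, hxa⟩ := h2 q hqB M le_rfl ha₁
    obtain ⟨y, hy, hyb⟩ := h2 q hqB M le_rfl hb₁
    have h5 := h4 x hx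
    have h6 := h4 y hy
    rw [hxa] at h5
    rw [hyb] at h6
    have h7 : a₁ - b₁ = (a₁ - f^[M] q) - (b₁ - f^[M] q) := by ring
    have h8 : D < D := by
      rw [hD, h7]
      refine (norm_sub_le _ _).trans_lt ?_
      rw [← h7, ← hD]
      linarith
    exact lt_irrefl _ h8

end Pool.Agent.H64.SPG
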