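import Pool.Agent.H64.SPG.Shift
import Pool.Agent.H81.RW.Bck

/-!
# All Julia sets: from `f^[n₀] z` back to `z` (`bck` of H81/RW/Bck for `PG`)
-/

set_option autoImplicit false

open Filter Topology Metric Set MeasureTheory

namespace Pool.Agent.H64.SPG

open Pool.Agent.H66.SP (PG)
open Pool.Agent.H81.RW (Fk)

theorem bck {f : ℂ → ℂ} {U J P Cr : Set ℂ} {δ : ℝ} {η : ℂ → ℂ → ℂ} {r₀ : ℝ} (h : PG f U J P Cr δ η r₀) {C' : ℝ} (hC : 1 ≤ C') :
    ∃ C : ℝ, C' ≤ C ∧ ∀ z ∈ J, (∀ n : ℕ, f^[n] z ∉ Cr) → ∀ (n₀ : ℕ) (κ : ℝ), 0 < κ → ∃ κ' : ℝ, 0 < κ' ∧ ∀ (c p : ℂ) (s : ℝ), 0 < s →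
      Fk f U J P δ C' (f^[n₀] z) c p s κ' → Fk f U J P δ C z c p s κ := by
  have hC0 : 0 < C' := one_pos.trans_le hC
  refine ⟨4 * C', by linarith, ?_⟩
  intro z hz hc n₀ κ hκ
  obtain ⟨κ', hκ', hsh⟩ := shift h hz hc n₀ (C := 2 * C' ^ 2) (κ := κ / (2 * C')) (by positivity)
    (by positivity)
  refine ⟨κ', hκ', ?_⟩
  rintro c p s hs ⟨m, g, hgc, hP, hg, hgv, hgz, hgs⟩
  have hb0 : 0 ≤ s * ‖deriv g p‖ := mul_nonneg hs.le (norm_nonneg _)
  have e2 : 2 * (s / (2 * C')) = s / C' := by field_simp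
  have e3 : ∀ t : ℝ, s / (2 * C') * t = s * t / (2 * C') := fun t => by ring
  obtain ⟨G, hG, hGv, hGz, hGs⟩ := hsh m p (s / (2 * C')) g (by positivity) (by rw [e2]; exact hg)
    (fun u hu => ⟨(hgv u (by rwa [e2] at hu)).1.1, (hgv u (by rwa [e2] at hu)).2⟩)
    (by
      refine hgz.trans (le_of_eq ?_)
      field_simp)
    (by
      rw [e3]
      refine lt_of_le_of_lt ?_ hgs
      rw [div_le_iff₀ (by positivity)]
      nlinarith)
  have hr1 : s / (4 * C') ≤ s / (2 * C') := div_le_div_of_nonneg_left hs.le (by positivity) (by linarith)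
  have hr2 : s / (4 * C') ≤ s / C' := div_le_div_of_nonneg_left hs.le (by positivity) (by linarith)
  refine ⟨m + n₀, G, ?_, hP.mono_left (ball_subset_ball hr2), hG.mono (ball_subset_ball hr1), ?_, ?_, ?_⟩
  · rw [Function.iterate_add_apply]
    refine hgc.trans ?_
    nlinarith
  · intro u hu
    obtain ⟨h1, h2⟩ := hGv u (ball_subset_ball hr1 hu)
    refine ⟨⟨h1, ?_⟩, h2⟩
    rw [h2]
    have h3 := hgv u (ball_subset_ball hr2 hu)
    have h4 := h3.1.2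
    rwa [h3.2] at h4
  · refine hGz.trans (le_of_eq ?_)
    field_simp
  · rw [e3, div_lt_div_iff_of_pos_right (by positivity)] at hGs
    exact hGs

end Pool.Agent.H64.SPG
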