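import Pool.Agent.H47.LG.Wlk
import Pool.Agent.H47.LG.Omc
import Pool.Agent.H47.LG.Clw
import Pool.Agent.H47.LG.Psw
import Pool.Agent.H81.RW.Cvt
import Pool.Agent.H64.SPG.Bck
import Pool.Agent.H66.SP.XG_Nvg

/-!
# All Julia sets: the end of chapter LW*: `NVP` for `PG`

As H81/RW/Nva, with `PG` in place of `PS` (chapter H47/LG).
-/

set_option autoImplicit false

open Filter Topology Metric Set MeasureTheory

namespace Pool.Agent.H64.SPG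

open Pool.Agent.H56.TH Pool.Agent.H66.DIM Pool.Agent.H80.AJ Pool.Agent.H47.LG
open Pool.Agent.H66.SP (PG)
open Pool.Agent.H81.RW (gdw winc win_col cvt Fk)

theorem nvp_g : Pool.Agent.H66.SP.NVP := by
  intro f U J P Cr M δ η r₀ h hM hn _ _ _ _ hRg hClu
  obtain ⟨δ', hδ'0, hδ', hW⟩ := ww_pg h hM hn
  obtain ⟨δo, hδo, hoff⟩ := ps_off h hM
  obtain ⟨c, hc, Λ, hΛ⟩ := lmc hW hClu
  obtain ⟨A₁, r₁, hr₁, hr₁'⟩ := hRg
  have hRG : RG M A₁ r₁ := ⟨hr₁, hr₁'⟩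
  have hv : f c ∈ M := vP hW hc
  have hΛ1 : 1 ≤ Λ := lm_pos hW hv hΛ
  obtain ⟨ε, hε, hε1, hmain⟩ := main hW hc hRG hΛ1
  obtain ⟨C, hC, hsc⟩ := sc_ex hW hRG hv hΛ hε
  obtain ⟨A, c₃, hA, hc₃, hmain'⟩ := hmain C hC
  obtain ⟨t₀, ht₀, ht₀1, hgdw⟩ := gdw hC
  obtain ⟨t₁, ht₁⟩ : ∃ t₁ : ℝ, t₁ = (1 + t₀) / 2 := ⟨_, rfl⟩
  have h01 : t₀ < t₁ := by linarith
  have h11 : t₁ < 1 := by linarith
  have h10 : 0 < t₁ := by linarith
  obtain ⟨θ, hθ⟩ : ∃ θ : ℝ, θ = Real.sqrt t₀ := ⟨_, rfl⟩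
  obtain ⟨θ₁, hθ₁⟩ : ∃ θ₁ : ℝ, θ₁ = Real.sqrt t₁ := ⟨_, rfl⟩
  have hθ0 : 0 < θ := hθ ▸ Real.sqrt_pos.2 ht₀
  have hθ2 : θ ^ 2 = t₀ := by rw [hθ]; exact Real.sq_sqrt ht₀.le
  have hθ₁2 : θ₁ ^ 2 = t₁ := by rw [hθ₁]; exact Real.sq_sqrt h10.le
  have hθ₁0 : 0 < θ₁ := hθ₁ ▸ Real.sqrt_pos.2 h10
  have hθθ : θ < θ₁ := by
    rw [hθ, hθ₁]
    exact Real.sqrt_lt_sqrt ht₀.le h01
  have hθ₁1 : θ₁ < 1 := by
    rw [hθ₁, Real.sqrt_lt' one_pos]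
    linarith
  have hD : (0 : ℝ) < 2 ^ ((M ∩ Cr).ncard + 1) := by positivity
  obtain ⟨R₀, C₁, hR₀, hC₁, hwlk⟩ := wlk hA hc₃ hD hC
  have hr₀ : 0 < r₀ := hW.hr
  have h2C : 1 ≤ 2 * C := by linarith
  obtain ⟨C₂, r₂, hC₂, hr₂, hwinc⟩ := winc (f := f) (η := η c) (v := f c) hr₀ (hW.ηd c hc) (hW.ηi c hc)
    (fun x hx => (hW.ηv c hc x hx).2) h2C
  obtain ⟨C₃, hC₃, hcol⟩ := win_col hθ0 hθθ hθ₁1 hC₂
  obtain ⟨C₄, r₄, hC₄, hr₄, hcvt⟩ := cvt (wk_ww hW hc) h2C hC₁ hR₀ hθ₁0 hθ₁1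
  obtain ⟨L, hL⟩ : ∃ L : ℝ, L = KK * ‖deriv (η c) 0‖ := ⟨_, rfl⟩
  have hL0 : 0 ≤ L := by rw [hL]; exact mul_nonneg KK_pos.le (norm_nonneg _)
  obtain ⟨Cg, hCg⟩ : ∃ Cg : ℝ, Cg = 2 * C + C₂ + C₃ + C₄ + L * A := ⟨_, rfl⟩
  have hLA : 0 ≤ L * A := mul_nonneg hL0 (by linarith)
  have hCg1 : 1 ≤ Cg := by rw [hCg]; linarith
  obtain ⟨Cf, hCf, hbck⟩ := Pool.Agent.H64.SPG.bck h hCg1
  have hCf0 : 0 < Cf := by linarith
  have hf1 : 2 * C ≤ Cf := by rw [hCg] at hCf; linarith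
  have hf2 : C₂ ≤ Cf := by rw [hCg] at hCf; linarith
  refine ⟨c, hc.2, hc.1, θ, θ₁, Cf, hθ0, hθθ, hθ₁1, by linarith, ?_⟩
  intro z hz hTz κ hκ
  -- the time shift
  obtain ⟨i₀, hi₀⟩ := hTz.lim δ' hδ'0
  obtain ⟨κb, hκb, hback⟩ := hbck z hz hTz.npc i₀ κ hκ
  obtain ⟨z', hz'⟩ : ∃ z', z' = f^[i₀] z := ⟨_, rfl⟩
  have hz'J : z' ∈ J := by rw [hz']; exact it_J hW i₀ hz
  have hz'N : ∀ j, f^[j] z' ∈ U ∧ infDist (f^[j] z') M < δ' := by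
    intro j
    refine ⟨h.JU (it_J hW j hz'J), ?_⟩
    rw [hz', ← Function.iterate_add_apply]
    obtain ⟨y, hy, hyz⟩ := hi₀ (j + i₀) (by omega)
    rw [← dist_eq_norm] at hyz
    exact (infDist_le_dist_of_mem hy).trans_lt hyz
  have hlim : ∀ ε : ℝ, 0 < ε → ∃ n₀ : ℕ, ∀ n ≥ n₀, ∃ y ∈ M, ‖f^[n] z' - y‖ < ε := by
    intro ε hε
    obtain ⟨n₀, hn₀⟩ := hTz.lim ε hε
    refine ⟨n₀, fun n hn => ?_⟩
    rw [hz', ← Function.iterate_add_apply]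
    exact hn₀ (n + i₀) (by omega)
  have hC₄0 : 0 < C₄ := by linarith
  obtain ⟨κ₁, hκ₁, hwlk'⟩ := hwlk hW c hc (κb / C₄) (div_pos hκb hC₄0)
  obtain ⟨κ₀, hκ₀, hmain''⟩ := hmain' κ₁ hκ₁
  -- the scale
  obtain ⟨q, hq⟩ : ∃ q : ℝ, q = min κ (min r₂ (min r₄ (min (r₀ / (2 * A)) (δ / (1 + C₂))))) := ⟨_, rfl⟩
  have hA0 : 0 < A := by linarith
  have hδ := h.hδ
  have hq0 : 0 < q := by
    rw [hq]
    refine lt_min hκ (lt_min hr₂ (lt_min hr₄ (lt_min ?_ ?_)))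
    · positivity
    · exact div_pos hδ (by linarith)
  have hq1 : q ≤ κ := hq ▸ min_le_left _ _
  have hq2 : q ≤ r₂ := hq ▸ (min_le_right _ _).trans (min_le_left _ _)
  have hq3 : q ≤ r₄ := hq ▸ (min_le_right _ _).trans ((min_le_right _ _).trans (min_le_left _ _))
  have hq4 : q ≤ r₀ / (2 * A) :=
    hq ▸ (min_le_right _ _).trans ((min_le_right _ _).trans ((min_le_right _ _).trans (min_le_left _ _)))
  have hq5 : q ≤ δ / (1 + C₂) :=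
    hq ▸ (min_le_right _ _).trans ((min_le_right _ _).trans ((min_le_right _ _).trans (min_le_right _ _)))
  obtain ⟨u, r, hSc, hCr⟩ := hsc (min (q ^ 2) (min κ₁ (min κ₀ δo)))
    (lt_min (by positivity) (lt_min hκ₁ (lt_min hκ₀ hδo)))
  have hr := hSc.r0
  have hk1 : C * r < q ^ 2 := hCr.trans_le (min_le_left _ _)
  have hk2 : C * r < κ₁ := hCr.trans_le ((min_le_right _ _).trans (min_le_left _ _))
  have hk3 : C * r < κ₀ := hCr.trans_le ((min_le_right _ _).trans ((min_le_right _ _).trans (min_le_left _ _)))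
  have hk4 : C * r < δo := hCr.trans_le ((min_le_right _ _).trans ((min_le_right _ _).trans (min_le_right _ _)))
  obtain ⟨s, hs⟩ : ∃ s : ℝ, s = Real.sqrt r := ⟨_, rfl⟩
  have hs0 : 0 < s := hs ▸ Real.sqrt_pos.2 hr
  have hs2 : s ^ 2 = r := by rw [hs]; exact Real.sq_sqrt hr.le
  have hsq : s < q := by
    have h1 : s ^ 2 < q ^ 2 := by
      rw [hs2]
      nlinarith
    exact lt_of_pow_lt_pow_left₀ 2 hq0.le h1
  -- the windows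
  obtain ⟨ψ, gi, hψ, hgi, hψ0, hψ1, hψ2, hψ3, hψd⟩ := hgdw M u (f c) r hr hSc.um hSc.uv hSc.lip hSc.sp
  have hψi : InjOn ψ (ball 0 1) := fun x hx y hy he => by
    rw [← (hψ1 x hx).2, ← (hψ1 y hy).2, he]
  have hψn : ∀ x ∈ ball (0 : ℂ) 1, ‖ψ x - f c‖ < C * r := fun x hx =>
    hSc.sp _ (lt_trans (by norm_num) (hψ1 x hx).1)
  have hψP : ∀ x ∈ ball (0 : ℂ) 1, ψ x ∈ P → ‖x‖ ≤ θ ^ 2 := by
    intro x hx hxP
    have h1 : ψ x ∈ M := by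
      refine hoff _ hxP ?_
      refine (infDist_le_dist_of_mem hv).trans_lt ?_
      rw [dist_eq_norm]
      exact (hψn x hx).trans hk4
    rw [hθ2]
    refine hψ3 x hx ?_
    rcases hSc.um.va _ h1 with h2 | h2
    · have h3 := (hψ1 x hx).1
      rw [h2] at h3
      norm_num at h3
    · rw [h2]
      norm_num
  have hψn' : ∀ x ∈ ball (0 : ℂ) 1, ‖ψ x - f c‖ < 2 * C * s ^ 2 := by
    intro x hx
    have h1 := hψn x hx
    rw [hs2]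
    nlinarith
  have hψd' : s ^ 2 ≤ 2 * C * ‖deriv ψ 0‖ := by
    rw [hs2]
    exact hψd
  obtain ⟨φ, hφ, hφi, hφ0, hφ1, hφd⟩ := hwinc ψ s hs0 (hsq.trans_le hq2) hψ hψi hψ0 hψn' hψd'
  rw [hW.η0 c hc] at hφ0 hφ1
  have hx2 : ∀ x ∈ ball (0 : ℂ) 1, x ^ 2 ∈ ball (0 : ℂ) 1 := by
    intro x hx
    rw [mem_ball_zero_iff] at hx ⊢
    rw [norm_pow]
    exact pow_lt_one₀ (norm_nonneg x) hx two_ne_zero
  have hφP : ∀ x ∈ ball (0 : ℂ) 1, φ x ∈ P → ‖x‖ ≤ θ := by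
    intro x hx hxP
    have h1 : ψ (x ^ 2) ∈ P := by
      rw [← (hφ1 x hx).2.1]
      exact h.Pf _ hxP
    have h2 := hψP _ (hx2 x hx) h1
    rw [norm_pow] at h2
    exact (pow_le_pow_iff_left₀ (norm_nonneg x) hθ0.le two_ne_zero).1 h2
  -- the frame
  obtain ⟨n, hn'⟩ := fst_ex hW hz'J hlim hc hSc.um hSc.uv
  have hO := hmain'' u r hSc hk3 z' hz'J hz'N n hn'
  obtain ⟨m, hm, hmE, hmA, x₀, hx₀, g, hg, hgs⟩ := hwlk' u r Λ ε hSc hk2 ψ gi t₁ hψ hgi hψ1 hψ2 h11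
    (fun x hx hxu => (hψ3 x hx hxu).trans_lt h01) z' hz'J (fun j => (hz'N j).1) hO
  rw [← hs2] at hg hgs
  obtain ⟨y, g₂, hy, hg₂, hg₂v, hg₂z, hg₂s⟩ := hcvt φ ψ s hs0 (hsq.trans_le hq3) hψ hψi hψ0 hψn' hψd' hφ hφi
    (fun x hx => ⟨(hφ1 x hx).1, (hφ1 x hx).2.1⟩) z' m x₀ g hm (hx₀.trans hθ₁2.symm) hg
  have hyB : y ∈ ball (0 : ℂ) 1 := by
    rw [mem_ball_zero_iff, hy]
    exact hθ₁1
  have hFk : Fk f U J P δ Cg (f^[i₀] z) c (φ y) s κb := by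
    rw [← hz']
    have hCg0 : 0 < Cg := by linarith
    have hr3 : s / Cg ≤ s / C₃ := div_le_div_of_nonneg_left hs0.le (by linarith) (by rw [hCg]; linarith)
    have hr5 : s / Cg ≤ s / C₄ := div_le_div_of_nonneg_left hs0.le hC₄0 (by rw [hCg]; linarith)
    have hr6 : s / Cg ≤ s := div_le_self hs0.le hCg1
    refine ⟨m - 1, g₂, ?_, ?_, hg₂.mono (ball_subset_ball hr5), ?_, ?_, ?_⟩
    · obtain ⟨t, ht, htm⟩ := hmE
      have e1 : f^[m] z' = f c + t ^ 2 := by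
        have e2 : m = (m - 1) + 1 := by omega
        rw [e2, Function.iterate_succ_apply', ← htm]
        exact (hW.ηv c hc t ht).2
      rw [e1, add_sub_cancel_left, norm_pow, ← hs2] at hmA
      have h2 : ‖t‖ ^ 2 ≤ (A * s) ^ 2 := by
        refine hmA.trans ?_
        rw [mul_pow]
        exact mul_le_mul_of_nonneg_right (by nlinarith) (by positivity)
      have h3 : ‖t‖ ≤ A * s := (pow_le_pow_iff_left₀ (norm_nonneg t) (by positivity) two_ne_zero).1 h2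
      have h4 : A * s ≤ r₀ / 2 := by
        have h5 : s ≤ r₀ / (2 * A) := hsq.le.trans hq4
        rw [le_div_iff₀ (by positivity)] at h5
        linarith
      have h5 : t ∈ closedBall (0 : ℂ) (r₀ / 2) := by
        rw [mem_closedBall_zero_iff]
        linarith
      have h6 : (0 : ℂ) ∈ closedBall (0 : ℂ) (r₀ / 2) := mem_closedBall_self (by positivity)
      have h7 := distort_lip hr₀ (hW.ηd c hc) (hW.ηi c hc) h5 h6 h6
      rw [htm, hW.η0 c hc, sub_zero, ← hL] at h7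
      calc ‖f^[m - 1] z' - c‖ ≤ L * ‖t‖ := h7
        _ ≤ L * (A * s) := mul_le_mul_of_nonneg_left h3 hL0
        _ = L * A * s := by ring
        _ ≤ Cg * s := mul_le_mul_of_nonneg_right (by rw [hCg]; linarith) hs0.le
    · rw [Set.disjoint_left]
      intro p hp hpP
      obtain ⟨x, hx, hxp⟩ := hcol φ s hs0 hφ hφi hφd y hy (ball_subset_ball hr3 hp)
      have h1 := hφP x (mem_ball_zero_iff.2 hx.2) (by rw [hxp]; exact hpP)
      linarith [hx.1]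
    · intro w hw
      obtain ⟨h1, h2⟩ := hg₂v w (ball_subset_ball hr5 hw)
      refine ⟨⟨h1, ?_⟩, h2⟩
      rw [h2, mem_thickening_iff]
      refine ⟨c, h.CJ hc.2, ?_⟩
      rw [mem_ball, dist_eq_norm] at hw
      rw [dist_eq_norm]
      have h3 := (hφ1 y hyB).2.2
      have h4 : w - c = (w - φ y) + (φ y - c) := by ring
      have h5 : s < δ / (1 + C₂) := hsq.trans_le hq5
      rw [lt_div_iff₀ (by linarith)] at h5
      calc ‖w - c‖ ≤ ‖w - φ y‖ + ‖φ y - c‖ := by rw [h4]; exact norm_add_le _ _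
        _ < s + C₂ * s := by linarith
        _ = s * (1 + C₂) := by ring
        _ < δ := h5
    · refine hg₂z.trans (mul_le_mul_of_nonneg_right (by rw [hCg]; linarith) (by positivity))
    · refine hg₂s.trans_lt ?_
      rw [lt_div_iff₀ hC₄0] at hgs
      linarith
  obtain ⟨m', g', h1, h2, h3, h4, h5, h6⟩ := hback c (φ y) s hs0 hFk
  refine ⟨φ, ψ, s, hs0, hsq.trans_le hq1, ⟨hψ, hψi, hψ0, fun x hx => ⟨?_, hψP x hx⟩, ?_⟩,
    ⟨hφ, hφi, hφ0, fun x hx => ⟨(hφ1 x hx).1, (hφ1 x hx).2.1, ?_, hφP x hx⟩, ?_⟩, m', y, g', hy, h1, h2, h3, h4, h5, h6⟩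
  · rw [mem_ball, dist_eq_norm]
    exact (hψn' x hx).trans_le (mul_le_mul_of_nonneg_right hf1 (by positivity))
  · exact hψd'.trans (mul_le_mul_of_nonneg_right hf1 (norm_nonneg _))
  · rw [mem_ball, dist_eq_norm]
    exact (hφ1 x hx).2.2.trans_le (mul_le_mul_of_nonneg_right hf2 hs0.le)
  · exact hφd.trans (mul_le_mul_of_nonneg_right hf2 (norm_nonneg _))

end Pool.Agent.H64.SPG
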