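import Pool.Agent.H66.SP.XG_Main
import Pool.Agent.H64.SPG.Nva
import Pool.Agent.H56.SPH.End1

/-!
# THEOREM DIM, THE PLANAR THEOREM FOR ALL JULIA SETS (setting `PG`, `FG`)

`rob_g`: a minimal piece `M` of `P` with a critical point which is uniformly perfect and has clusters at arbitrarily small scales does not
attract a typical point of the field. `robg`: in the form `ROBg` of H56/SPH/End1.
-/

set_option autoImplicit false

open Filter Topology Metric Set MeasureTheory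

namespace Pool.Agent.H64.SPG

open Pool.Agent.H66.SP (PG FG)
open Pool.Agent.H66.DIM (Mn Tz Rg Clu)
open Pool.Agent.H64.XG (rec_in)

theorem rob_g {f : ℂ → ℂ} {U J P Cr M E : Set ℂ} {δ : ℝ} {η : ℂ → ℂ → ℂ} {r₀ : ℝ} {X hh μ : ℂ → ℂ} {b0 : ℝ}
    (h : PG f U J P Cr δ η r₀) (hX : FG f U J E δ X hh μ b0) (hM : Mn f P M) (hMC : (M ∩ Cr).Nonempty)
    (htd : IsTotallyDisconnected P) (hCP : Cr ⊆ P) (hPM : ∀ x ∈ P, x ∉ M → f x ∉ M)
    (hrec : ∀ c ∈ Cr, ∀ ε : ℝ, 0 < ε → ∃ n : ℕ, 1 ≤ n ∧ ‖f^[n] c - c‖ < ε) (hRg : Rg M) (hClu : Clu M) {z : ℂ}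
    (hz : z ∈ E) (hTz : Tz f Cr M z) : False := by
  obtain ⟨c, hc, hcM, θ, θ₁, C, h0, h1, h2, hC, hall⟩ := nvp_g h hM hMC htd hCP hPM hrec hRg hClu
  obtain ⟨ε, m, y, χ, g, hN, hy⟩ := Pool.Agent.H66.SP.nvs_of h hc h0 h1 h2 hC (hall z (hX.EJ hz) hTz)
  exact Pool.Agent.H66.SP.x_false h hX hM hCP (rec_in hM fun c hc ε hε => by
    obtain ⟨n, h1, h2⟩ := hrec c hc ε hε
    exact ⟨n, h1, h2⟩) hz hTz hc hcM hN hy

theorem robg : Pool.Agent.H56.SPH.ROBg := fun h hX _ hM hMC htd hCP hPM hrec hRg hClu _ hz hTz =>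
  rob_g h hX hM hMC htd hCP hPM hrec hRg hClu hz hTz

end Pool.Agent.H64.SPG
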