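import Pool.Agent.H66.SP.XG_Main
import Pool.Agent.H64.SPG.Nvm

/-!
# THEOREM DIM, THE PLANAR THEOREM FOR ALL JULIA SETS, local form

`rob_m`: as `rob_g` (H64/SPG/Rob) without hypotheses on `P` outside `M`: `P` may contain continua, the critical points outside `M` need not be
recurrent; only: they do not enter `M` (`hin`).
-/

set_option autoImplicit false

open Filter Topology Metric Set MeasureTheory

namespace Pool.Agent.H64.SPG

open Pool.Agent.H66.SP (PG FG)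
open Pool.Agent.H66.DIM (Mn Tz Rg Clu)

theorem rob_m {f : ℂ → ℂ} {U J P Cr M E : Set ℂ} {δ : ℝ} {η : ℂ → ℂ → ℂ} {r₀ : ℝ} {X hh μ : ℂ → ℂ} {b0 : ℝ}
    (h : PG f U J P Cr δ η r₀) (hX : FG f U J E δ X hh μ b0) (hM : Mn f P M) (hMC : (M ∩ Cr).Nonempty)
    (hCP : Cr ⊆ P) (hin : ∀ c ∈ Cr, ∀ j : ℕ, f^[j] c ∈ M → c ∈ M) (hRg : Rg M) (hClu : Clu M) {z : ℂ}
    (hz : z ∈ E) (hTz : Tz f Cr M z) : False := by
  obtain ⟨c, hc, hcM, θ, θ₁, C, h0, h1, h2, hC, hall⟩ := nvp_m h hM hMC hRg hClu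
  obtain ⟨ε, m, y, χ, g, hN, hy⟩ := Pool.Agent.H66.SP.nvs_of h hc h0 h1 h2 hC (hall z (hX.EJ hz) hTz)
  exact Pool.Agent.H66.SP.x_false h hX hM hCP hin hz hTz hc hcM hN hy

end Pool.Agent.H64.SPG
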